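import Mathlib
import Pool.Agent.P8H99.SepGraph

/-!
# Separator exponent versus expansion exponent: `c* = 1`

For every `δ` between `0` and `1` we give a monotone class of graphs in which every graph with `n`
vertices has a balanced separator of order at most `4 n ^ (1 - δ)`, and which has, for every `r ≥ 1`,
a complete graph with at least `r ^ (1 / δ - 1)` vertices as a depth-`r` minor of one of its members:
the subgraphs of the complete graphs on about `r ^ (1 / δ - 1)` vertices with all edges subdivided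
`2 r` times. Hence no exponent `c < 1` has the property in the definition of `A`.
-/

set_option autoImplicit false

namespace Pool.Agent.Results.MP_2f3b43_co.ExpansionExponent

open Filter Asymptotics

/-- A class of finite graphs, given by its members with the vertex sets `Fin n`. -/
abbrev GraphClass : Type := (n : ℕ) → SimpleGraph (Fin n) → Prop

/-- The class is closed under taking subgraphs (and isomorphic copies). -/
def IsMonotone (C : GraphClass) : Prop :=
  ∀ (m n : ℕ) (H : SimpleGraph (Fin m)) (G : SimpleGraph (Fin n)) (φ : Fin m → Fin n),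
    Function.Injective φ → (∀ a b, H.Adj a b → G.Adj (φ a) (φ b)) → C n G → C m H

/-- `S` is a balanced separator of `G`: every component of `G - S` has at most `2 n / 3` vertices. -/
def IsBalancedSeparator {n : ℕ} (G : SimpleGraph (Fin n)) (S : Finset (Fin n)) : Prop :=
  ∀ K : (G.induce ((S : Set (Fin n))ᶜ)).ConnectedComponent, (K.supp.ncard : ℝ) ≤ 2 * n / 3

/-- Every graph of the class with `n` vertices has a balanced separator of order at most
`K n ^ (1 - δ)`. -/
def SeparatorBound (C : GraphClass) (K δ : ℝ) : Prop :=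
  ∀ (n : ℕ) (G : SimpleGraph (Fin n)), C n G →
    ∃ S : Finset (Fin n), IsBalancedSeparator G S ∧ (S.card : ℝ) ≤ K * (n : ℝ) ^ (1 - δ)

/-- `H` is a depth-`r` minor of `G`: there are disjoint connected subgraphs `B u` of `G` of radius at
most `r`, one for each vertex `u` of `H`, such that for every edge `u v` of `H` some edge of `G` joins
`B u` and `B v`. -/
def IsDepthMinor (r : ℕ) {m n : ℕ} (H : SimpleGraph (Fin m)) (G : SimpleGraph (Fin n)) : Prop :=
  ∃ B : Fin m → Set (Fin n), (∀ u v, u ≠ v → Disjoint (B u) (B v)) ∧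
    (∀ u, ∃ x : B u, ∀ y : B u, ∃ p : (G.induce (B u)).Walk x y, p.length ≤ r) ∧
    ∀ u v, H.Adj u v → ∃ a ∈ B u, ∃ b ∈ B v, G.Adj a b

/-- The average degree. -/
noncomputable def avgDegree {m : ℕ} (H : SimpleGraph (Fin m)) : ℝ :=
  (∑ v, ((H.neighborSet v).ncard : ℝ)) / m

/-- The class has expansion bounded by `f`: every depth-`r` minor of a graph in the class has average
degree at most `f r`. -/
def ExpansionBounded (C : GraphClass) (f : ℕ → ℝ) : Prop :=
  ∀ (n : ℕ) (G : SimpleGraph (Fin n)), C n G → ∀ (r m : ℕ) (H : SimpleGraph (Fin m)), 0 < m →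
    IsDepthMinor r H G → avgDegree H ≤ f r

/-- The set `A` of the problem: the real numbers `c > 0` such that, for every `δ` in `(0, 1]`, every
monotone class of graphs with balanced separators of order `O (n ^ (1 - δ))` has expansion bounded by
some function `f` with `f r = O (r ^ (c / δ))`. -/
def A : Set ℝ := {c | 0 < c ∧ ∀ δ : ℝ, 0 < δ → δ ≤ 1 → ∀ C : GraphClass, IsMonotone C →
  (∃ K : ℝ, SeparatorBound C K δ) →
    ∃ f : ℕ → ℝ, ExpansionBounded C f ∧ f =O[atTop] fun r : ℕ => (r : ℝ) ^ (c / δ)}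

open Pool.Agent.P8H99.Sep

/-- the number of branch vertices -/
noncomputable def NN (δ : ℝ) (r : ℕ) : ℕ := ⌈(r : ℝ) ^ (1 / δ - 1)⌉₊

/-- the class of the subgraphs of the subdivided complete graphs -/
def Cl (δ : ℝ) : GraphClass := fun n G => ∃ r : ℕ, 1 ≤ r ∧ ∃ φ : Fin n → VS (NN δ r) r,
  Function.Injective φ ∧ ∀ a b, G.Adj a b → (sub (NN δ r) r).Adj (φ a) (φ b)

lemma cl_mono (δ : ℝ) : IsMonotone (Cl δ) := by
  rintro m n H G ψ hψ hadj ⟨r, hr, φ, hφ, h⟩
  exact ⟨r, hr, fun a => φ (ψ a), hφ.comp hψ, fun a b hab => h _ _ (hadj a b hab)⟩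

lemma NN_ge (δ : ℝ) (r : ℕ) : (r : ℝ) ^ (1 / δ - 1) ≤ NN δ r := Nat.le_ceil _

lemma NN_le {δ : ℝ} (h1 : δ < 1) (h0 : 0 < δ) {r : ℕ} (hr : 1 ≤ r) :
    (NN δ r : ℝ) ≤ 2 * (r : ℝ) ^ (1 / δ - 1) := by
  have hr' : (1 : ℝ) ≤ r := by exact_mod_cast hr
  have he : 0 ≤ 1 / δ - 1 := by
    rw [sub_nonneg, le_div_iff₀ h0]
    linarith
  have h2 : (1 : ℝ) ≤ (r : ℝ) ^ (1 / δ - 1) := Real.one_le_rpow hr' he
  have h3 := Nat.ceil_lt_add_one (a := (r : ℝ) ^ (1 / δ - 1)) (by positivity)
  unfold NN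
  linarith

lemma cl_sep {δ : ℝ} (h0 : 0 < δ) (h1 : δ < 1) : SeparatorBound (Cl δ) 4 δ := by
  rintro n G ⟨r, hr, φ, hφ, h⟩
  obtain ⟨S, ⟨k, hk1, hk2, hk3⟩, hS⟩ := separator hr G φ hφ h
  refine ⟨S, ?_, ?_⟩
  · intro K
    have := hS K
    have h' : (3 : ℝ) * K.supp.ncard ≤ 2 * n := by exact_mod_cast this
    linarith
  · rcases Nat.eq_zero_or_pos n with hn | hn
    · subst hn
      have : S.card = 0 := by
        have := Finset.card_le_univ S
        simpa using this
      rw [this]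
      have h6 : (0 : ℝ) ≤ ((0 : ℕ) : ℝ) ^ (1 - δ) := Real.rpow_nonneg (by simp) _
      push_cast at h6 ⊢
      linarith
    · have hn' : (1 : ℝ) ≤ n := by exact_mod_cast hn
      have hr' : (1 : ℝ) ≤ r := by exact_mod_cast hr
      have hd : (0 : ℝ) ≤ 1 - δ := by linarith
      have hn2 : (1 : ℝ) ≤ (n : ℝ) ^ (1 - δ) := Real.one_le_rpow hn' hd
      have hkr : (k : ℝ) ≤ 2 * (n : ℝ) ^ (1 - δ) := by
        rcases Nat.eq_zero_or_pos k with h0' | h0'
        · rw [h0']
          have : (0 : ℝ) ≤ (n : ℝ) ^ (1 - δ) := by positivity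
          push_cast
          linarith
        · have hk : (0 : ℝ) < k := by exact_mod_cast h0'
          have e1 : (k : ℝ) = (k : ℝ) ^ δ * (k : ℝ) ^ (1 - δ) := by
            rw [← Real.rpow_add hk]
            rw [show δ + (1 - δ) = 1 by ring, Real.rpow_one]
          have e2 : (k : ℝ) ^ δ ≤ 2 * (r : ℝ) ^ (1 - δ) := by
            calc (k : ℝ) ^ δ ≤ (2 * (r : ℝ) ^ (1 / δ - 1)) ^ δ := by
                  apply Real.rpow_le_rpow hk.le _ h0.le
                  refine le_trans ?_ (NN_le h1 h0 hr)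
                  exact_mod_cast hk2
              _ = 2 ^ δ * (r : ℝ) ^ (1 - δ) := by
                  rw [Real.mul_rpow (by norm_num) (by positivity), ← Real.rpow_mul (by positivity)]
                  congr 2
                  field_simp
              _ ≤ 2 ^ (1 : ℝ) * (r : ℝ) ^ (1 - δ) := by
                  gcongr
                  norm_num
              _ = 2 * (r : ℝ) ^ (1 - δ) := by rw [Real.rpow_one]
          have e3 : (r : ℝ) ^ (1 - δ) * (k : ℝ) ^ (1 - δ) ≤ (n : ℝ) ^ (1 - δ) := by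
            rw [← Real.mul_rpow (by positivity) (by positivity)]
            apply Real.rpow_le_rpow (by positivity) _ hd
            rw [mul_comm]
            exact_mod_cast hk3
          rw [e1]
          calc (k : ℝ) ^ δ * (k : ℝ) ^ (1 - δ) ≤ (2 * (r : ℝ) ^ (1 - δ)) * (k : ℝ) ^ (1 - δ) := by
                gcongr
            _ = 2 * ((r : ℝ) ^ (1 - δ) * (k : ℝ) ^ (1 - δ)) := by ring
            _ ≤ 2 * (n : ℝ) ^ (1 - δ) := by linarith
      have h5 : (S.card : ℝ) ≤ k + 2 := by exact_mod_cast hk1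
      linarith

lemma adj_first {N r : ℕ} {u v : Fin N} {i : Fin r} (huv : u ≠ v) (hi : i.val = 0) :
    (sub N r).Adj (Sum.inl u) (Sum.inr (u, v, i)) := by
  unfold sub
  rw [SimpleGraph.fromRel_adj]
  exact ⟨by simp, Or.inl ⟨rfl, huv, hi⟩⟩

lemma adj_next {N r : ℕ} {u v : Fin N} {i j : Fin r} (huv : u ≠ v) (hi : i.val + 1 = j.val) :
    (sub N r).Adj (Sum.inr (u, v, i)) (Sum.inr (u, v, j)) := by
  unfold sub
  rw [SimpleGraph.fromRel_adj]
  refine ⟨?_, Or.inl ⟨huv, Or.inl ⟨rfl, rfl, hi⟩⟩⟩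
  intro h
  simp only [Sum.inr.injEq, Prod.mk.injEq, true_and] at h
  subst h
  omega

lemma adj_last {N r : ℕ} {u v : Fin N} {i j : Fin r} (huv : u ≠ v) (hi : i.val + 1 = r)
    (hj : j.val + 1 = r) : (sub N r).Adj (Sum.inr (u, v, i)) (Sum.inr (v, u, j)) := by
  unfold sub
  rw [SimpleGraph.fromRel_adj]
  refine ⟨?_, Or.inl ⟨huv, Or.inr ⟨rfl, rfl, hi, hj⟩⟩⟩
  intro h
  simp only [Sum.inr.injEq, Prod.mk.injEq] at h
  exact huv h.1

/-- the complete graph is a depth-`r` minor of the subdivided complete graph -/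
lemma minor {N r : ℕ} (hr : 1 ≤ r) : ∃ (n : ℕ) (e : Fin n ≃ VS N r),
    IsDepthMinor r (⊤ : SimpleGraph (Fin N)) ((sub N r).comap e) := by
  refine ⟨Fintype.card (VS N r), (Fintype.equivFin _).symm, ?_⟩
  set e : Fin (Fintype.card (VS N r)) ≃ VS N r := (Fintype.equivFin _).symm with he
  refine ⟨fun u => {x | e x = Sum.inl u ∨ ∃ v i, u ≠ v ∧ e x = Sum.inr (u, v, i)}, ?_, ?_, ?_⟩
  · intro u v huv
    rw [Set.disjoint_left]
    rintro x (hx | ⟨a, i, -, hx⟩) (hx' | ⟨b, j, -, hx'⟩) <;> rw [hx] at hx' <;>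
      simp only [Sum.inl.injEq, Sum.inr.injEq, Prod.mk.injEq, reduceCtorEq] at hx'
    · exact huv hx'
    · exact huv hx'.1
  · intro u
    refine ⟨⟨e.symm (Sum.inl u), Or.inl (by simp)⟩, ?_⟩
    have key : ∀ (v : Fin N) (huv : u ≠ v) (k : ℕ) (hk : k < r) (y : {x | e x = Sum.inl u ∨
        ∃ v i, u ≠ v ∧ e x = Sum.inr (u, v, i)}), e (y : Fin _) = Sum.inr (u, v, ⟨k, hk⟩) →
        ∃ p : (((sub N r).comap e).induce {x | e x = Sum.inl u ∨
          ∃ v i, u ≠ v ∧ e x = Sum.inr (u, v, i)}).Walk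
            ⟨e.symm (Sum.inl u), Or.inl (by simp)⟩ y, p.length ≤ k + 1 := by
      intro v huv k
      induction k with
      | zero =>
        intro hk y hy
        have hadj : (((sub N r).comap e).induce {x | e x = Sum.inl u ∨
          ∃ v i, u ≠ v ∧ e x = Sum.inr (u, v, i)}).Adj
            ⟨e.symm (Sum.inl u), Or.inl (by simp)⟩ y := by
          rw [SimpleGraph.comap_adj, SimpleGraph.comap_adj]
          simp only [Function.Embedding.subtype_apply, Equiv.apply_symm_apply]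
          rw [hy]
          exact adj_first huv rfl
        exact ⟨SimpleGraph.Walk.cons hadj SimpleGraph.Walk.nil, le_of_eq rfl⟩
      | succ k ih =>
        intro hk y hy
        obtain ⟨p, hp⟩ := ih (by omega) ⟨e.symm (Sum.inr (u, v, ⟨k, by omega⟩)),
          Or.inr ⟨v, ⟨k, by omega⟩, huv, by simp⟩⟩ (by simp)
        have hadj : (((sub N r).comap e).induce {x | e x = Sum.inl u ∨
          ∃ v i, u ≠ v ∧ e x = Sum.inr (u, v, i)}).Adj
            ⟨e.symm (Sum.inr (u, v, ⟨k, by omega⟩)), Or.inr ⟨v, ⟨k, by omega⟩, huv, by simp⟩⟩ y := by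
          rw [SimpleGraph.comap_adj, SimpleGraph.comap_adj]
          simp only [Function.Embedding.subtype_apply, Equiv.apply_symm_apply]
          rw [hy]
          exact adj_next huv rfl
        refine ⟨p.concat hadj, ?_⟩
        rw [SimpleGraph.Walk.length_concat]
        omega
    rintro ⟨y, hy⟩
    rcases hy with hy | ⟨v, i, huv, hy⟩
    · have : y = e.symm (Sum.inl u) := by rw [← hy]; simp
      subst this
      exact ⟨SimpleGraph.Walk.nil, by simp⟩
    · obtain ⟨p, hp⟩ := key v huv i.val i.2 ⟨y, Or.inr ⟨v, i, huv, hy⟩⟩ hy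
      exact ⟨p, hp.trans (by have := i.2; omega)⟩
  · intro u v huv
    rw [SimpleGraph.top_adj] at huv
    refine ⟨e.symm (Sum.inr (u, v, ⟨r - 1, by omega⟩)), Or.inr ⟨v, ⟨r - 1, by omega⟩, huv, by simp⟩,
      e.symm (Sum.inr (v, u, ⟨r - 1, by omega⟩)), Or.inr ⟨u, ⟨r - 1, by omega⟩, huv.symm, by simp⟩, ?_⟩
    rw [SimpleGraph.comap_adj]
    simp only [Equiv.apply_symm_apply]
    exact adj_last huv (by simp; omega) (by simp; omega)

lemma avg_top {N : ℕ} (hN : 0 < N) : avgDegree (⊤ : SimpleGraph (Fin N)) = N - 1 := by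
  have h1 : ∀ v : Fin N, (((⊤ : SimpleGraph (Fin N)).neighborSet v).ncard : ℝ) = N - 1 := by
    intro v
    have h2 : (⊤ : SimpleGraph (Fin N)).neighborSet v = {v}ᶜ := by
      ext w
      simp [eq_comm]
    rw [h2, Set.ncard_compl, Set.ncard_singleton, Nat.card_fin, Nat.cast_sub hN]
    simp
  unfold avgDegree
  rw [Finset.sum_congr rfl (fun v _ => h1 v), Finset.sum_const, Finset.card_univ, Fintype.card_fin,
    nsmul_eq_mul]
  have : (N : ℝ) ≠ 0 := by exact_mod_cast hN.ne'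
  field_simp

/-- **The answer is `c* = 1`.**
(1) For every `0 < δ < 1` there is a monotone class `C` of graphs in which all graphs with `n`
vertices have balanced separators of order at most `4 n ^ (1 - δ)` and such that, for every `r ≥ 1`,
some complete graph with at least `r ^ (1 / δ - 1)` vertices is a depth-`r` minor of a graph in `C`.
(2) Every `c` in `A` is at least `1`. (The inequality `c* = inf A ≤ 1` is known.) -/
theorem result :
    (∀ δ : ℝ, 0 < δ → δ < 1 → ∃ C : GraphClass, IsMonotone C ∧ SeparatorBound C 4 δ ∧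
      ∀ r : ℕ, 1 ≤ r → ∃ (N n : ℕ) (G : SimpleGraph (Fin n)), (r : ℝ) ^ (1 / δ - 1) ≤ N ∧ C n G ∧
        IsDepthMinor r (⊤ : SimpleGraph (Fin N)) G) ∧
    ∀ c ∈ A, 1 ≤ c := by
  have part1 : ∀ δ : ℝ, 0 < δ → δ < 1 → ∃ C : GraphClass, IsMonotone C ∧ SeparatorBound C 4 δ ∧
      ∀ r : ℕ, 1 ≤ r → ∃ (N n : ℕ) (G : SimpleGraph (Fin n)), (r : ℝ) ^ (1 / δ - 1) ≤ N ∧ C n G ∧
        IsDepthMinor r (⊤ : SimpleGraph (Fin N)) G := by
    intro δ h0 h1
    refine ⟨Cl δ, cl_mono δ, cl_sep h0 h1, ?_⟩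
    intro r hr
    obtain ⟨n, e, h⟩ := minor (N := NN δ r) hr
    exact ⟨NN δ r, n, _, NN_ge δ r, ⟨r, hr, e, e.injective, fun a b hab => hab⟩, h⟩
  refine ⟨part1, ?_⟩
  rintro c ⟨hc0, hc⟩
  by_contra hcon
  push Not at hcon
  set δ : ℝ := (1 - c) / 2 with hδ
  have h0 : 0 < δ := by rw [hδ]; linarith
  have h1 : δ < 1 := by rw [hδ]; linarith
  obtain ⟨C, hC1, hC2, hC3⟩ := part1 δ h0 h1
  obtain ⟨f, hf1, hf2⟩ := hc δ h0 h1.le C hC1 ⟨4, hC2⟩
  obtain ⟨K, hK⟩ := hf2.bound
  have hab : 0 < (1 / δ - 1) - c / δ := by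
    have : (1 / δ - 1) - c / δ = (1 - δ - c) / δ := by field_simp
    rw [this]
    apply div_pos _ h0
    rw [hδ]; linarith
  have hb : 0 ≤ c / δ := by positivity
  have hlim : Tendsto (fun r : ℕ => (r : ℝ) ^ ((1 / δ - 1) - c / δ)) atTop atTop :=
    (tendsto_rpow_atTop hab).comp tendsto_natCast_atTop_atTop
  obtain ⟨r, ⟨hr1, hr2⟩, hr3⟩ := ((hK.and (eventually_ge_atTop 1)).and
    (hlim.eventually_gt_atTop (K + 1))).exists
  obtain ⟨N, n, G, hN, hG, hmin⟩ := hC3 r hr2
  have hr' : (1 : ℝ) ≤ r := by exact_mod_cast hr2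
  have hrpos : (0 : ℝ) < r := by linarith
  have hNpos : 0 < N := by
    have h5 : (0 : ℝ) < (r : ℝ) ^ (1 / δ - 1) := by positivity
    have : (0 : ℝ) < N := lt_of_lt_of_le h5 hN
    exact_mod_cast this
  have h2 := hf1 n G hG r N ⊤ hNpos hmin
  rw [avg_top hNpos] at h2
  have h3 : f r ≤ K * (r : ℝ) ^ (c / δ) := by
    refine (le_abs_self _).trans ?_
    rw [Real.norm_eq_abs, Real.norm_eq_abs] at hr1
    refine hr1.trans_eq ?_
    rw [abs_of_nonneg (by positivity)]
  have h4 : (r : ℝ) ^ (1 / δ - 1) = (r : ℝ) ^ ((1 / δ - 1) - c / δ) * (r : ℝ) ^ (c / δ) := by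
    rw [← Real.rpow_add hrpos]
    congr 1
    ring
  have h5 : (1 : ℝ) ≤ (r : ℝ) ^ (c / δ) := Real.one_le_rpow hr' hb
  have h6 : (K + 1) * (r : ℝ) ^ (c / δ) < (r : ℝ) ^ (1 / δ - 1) := by
    rw [h4]
    have : (0 : ℝ) < (r : ℝ) ^ (c / δ) := by linarith
    gcongr
  nlinarith

end Pool.Agent.Results.MP_2f3b43_co.ExpansionExponent
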